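import Pool.Agent.W2helper30.FP.Sums
import Pool.Agent.W2helper30.FP.Law
import Pool.Agent.W2helper30.AN.Ex

/-!
# Non-special systems with two consecutive multiplicities whose sum runs through a very sparse family

The sums of the multiplicities are the members `c₀ + κ ⌊U f(x₀ + 1 / i)⌋`, `M < i ≤ 2 M`, of the sparse families of an analytic
function `f`; `U` may be as large as `exp ((log M) ^ (3 / 2 - ε₀))`.

Method: a system with the multiplicities `m`, `m + 1` of `n` points and the sum `W` can be special only if `W / √n` lies in a certain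
arc modulo one (library: `Pool.Agent.N141.SG.window_near`). Vinogradov's mean value method gives the exponential sums of the members at
irrational frequencies (`Pool.Agent.W2helper30.AN`); the numbers `1 / √n` and `1` are linearly independent over `ℚ` if the squarefree
parts of the `n` are different; simultaneous approximation gives the common difference of the progressions.
-/

set_option autoImplicit false

namespace Pool.Agent.Results.MP_d3128a_ag.AnalyticSparseSums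

open MvPolynomial
open Pool.Agent.N794.DG (Always meas law meas_mono)
open Pool.Agent.W2helper30.AN (Ord Rg vl)

/-- `f` is real analytic at `x₀`, and `K ≥ 1` is the order of the zero of `f - f x₀` at `x₀` -/
def OrderAt (f : ℝ → ℝ) (x₀ : ℝ) (K : ℕ) : Prop :=
  AnalyticAt ℝ f x₀ ∧ 1 ≤ K ∧ (∀ j : ℕ, 1 ≤ j → j < K → iteratedDeriv j f x₀ = 0) ∧
    iteratedDeriv K f x₀ ≠ 0

/-- the range of the parameters: `M ^ (K + δ₀) ≤ U ≤ exp ((log M) ^ (3 / 2 - ε₀))` -/
def InRange (K : ℕ) (δ₀ ε₀ : ℝ) (M : ℕ) (U : ℝ) : Prop :=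
  (M : ℝ) ^ ((K : ℝ) + δ₀) ≤ U ∧ U ≤ Real.exp ((Real.log M) ^ (3 / 2 - ε₀))

/-- the members of the family -/
noncomputable def member (f : ℝ → ℝ) (x₀ U : ℝ) (c₀ κ : ℤ) (i : ℕ) : ℤ :=
  c₀ + κ * ⌊U * f (x₀ + 1 / i)⌋

/-- Forms of degree `d` vanishing to order at least `w i` at the points `(P i 0 : P i 1 : 1)`. -/
noncomputable def forms {n : ℕ} (P : Fin n → Fin 2 → ℂ) (d : ℕ) (w : Fin n → ℕ) :
    Submodule ℂ (MvPolynomial (Fin 3) ℂ) :=
  homogeneousSubmodule (Fin 3) ℂ d ⊓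
    Submodule.restrictScalars ℂ
      (⨅ i : Fin n, (Ideal.span {X 0 - C (P i 0) * X 2, X 1 - C (P i 1) * X 2} :
        Ideal (MvPolynomial (Fin 3) ℂ)) ^ (w i))

/-- For general points (one nonempty open set for all degrees) the systems of curves with the
multiplicities `w` are non-special in every degree. -/
def NonSpecial {n : ℕ} (w : Fin n → ℕ) : Prop :=
  ∃ F : MvPolynomial (Fin n × Fin 2) ℂ, F ≠ 0 ∧ ∀ P : Fin n → Fin 2 → ℂ,
    MvPolynomial.eval (fun ij : Fin n × Fin 2 => P ij.1 ij.2) F ≠ 0 →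
    ∀ d : ℕ, (Module.finrank ℂ ↥(forms P d w) : ℤ) - 1 =
      max (((d + 2).choose 2 : ℤ) - 1 - ∑ i, ((w i + 1).choose 2 : ℤ)) (-1)

/-- All vectors of `n` positive multiplicities with sum `W` which take at most two consecutive values
`m`, `m + 1` are non-special in every degree. -/
def Good (n W : ℕ) : Prop :=
  ∀ m : ℕ, 0 < m → ∀ w : Fin n → ℕ, (∀ i, w i = m ∨ w i = m + 1) → ∑ i, w i = W → NonSpecial w

open Classical in
/-- The bound for the proportion of the bad sums for `n` points. -/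
noncomputable def bad (n : ℕ) : ℝ :=
  if IsSquare n then 0
  else (min (√(n : ℝ) - 3) (2 / 3 + 9 / (4 * √(n : ℝ))) +
    min (√(n : ℝ) - 3) (2 / 3 + 1 / (4 * √(n : ℝ)))) / 2

theorem nonSpecial_of {n : ℕ} {w : Fin n → ℕ} (h : Pool.Agent.N141.SG.ExN w) : NonSpecial w := by
  obtain ⟨F, hF, hF'⟩ := h
  refine ⟨F.map (algebraMap ℚ ℂ), Pool.Agent.H932R3.map_ne_zero_of hF, fun P hP d => ?_⟩
  rw [MvPolynomial.eval_map] at hP
  have h1 := hF' P hP d
  unfold Pool.Agent.H932R3.ExpDim at h1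
  unfold forms
  rw [h1]
  have e : ∑ i, ((w i + 1).choose 2 : ℤ) = ((∑ i, (w i + 1).choose 2 : ℕ) : ℤ) := by
    push_cast
    rfl
  rw [e]
  omega

theorem good_of {n W : ℕ} (h : Pool.Agent.N141.SG.GoodN n W) : Good n W :=
  fun m hm w hw hsum => nonSpecial_of (h m hm w hw hsum)

lemma bad_eq (n : ℕ) : bad n = Pool.Agent.N141.SG.badN n := by
  unfold bad Pool.Agent.N141.SG.badN
  rfl

theorem bad_ten : bad 10 < 0.163 := by
  have h1 : √((10 : ℕ) : ℝ) < 3.163 := by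
    rw [Real.sqrt_lt' (by norm_num)]
    norm_num
  have h0 : ¬ IsSquare 10 := by
    rintro ⟨k, hk⟩
    have : k ≤ 3 := by nlinarith
    interval_cases k <;> omega
  unfold bad
  rw [if_neg h0]
  have h2 := min_le_left (√((10 : ℕ) : ℝ) - 3) (2 / 3 + 9 / (4 * √((10 : ℕ) : ℝ)))
  have h3 := min_le_left (√((10 : ℕ) : ℝ) - 3) (2 / 3 + 1 / (4 * √((10 : ℕ) : ℝ)))
  linarith

theorem bad_le (n : ℕ) : bad n ≤ 2 / 3 + 5 / (4 * √(n : ℝ)) := by
  unfold bad
  split_ifs with h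
  · positivity
  · have h2 := min_le_right (√(n : ℝ) - 3) (2 / 3 + 9 / (4 * √(n : ℝ)))
    have h3 := min_le_right (√(n : ℝ) - 3) (2 / 3 + 1 / (4 * √(n : ℝ)))
    have e1 : 9 / (4 * √(n : ℝ)) = 9 * (1 / (4 * √(n : ℝ))) := by ring
    have e2 : 5 / (4 * √(n : ℝ)) = 5 * (1 / (4 * √(n : ℝ))) := by ring
    rw [e2]
    linarith [e1]

/-- counting the members with a property -/
lemma count_eq {M : ℕ} (hM : 0 < M) (x : ℕ → ℕ) (P : ℕ → Prop) :
    ({i : ℕ | M < i ∧ i ≤ 2 * M ∧ P (x i)}.ncard : ℝ) =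
      M * meas (law (Finset.Ioc M (2 * M)) (fun _ => 1 / (M : ℝ)) x) P := by
  classical
  rw [Pool.Agent.W2helper30.FP.meas_law, ← Finset.sum_filter, Finset.sum_const, nsmul_eq_mul]
  have e : {i : ℕ | M < i ∧ i ≤ 2 * M ∧ P (x i)} =
      (((Finset.Ioc M (2 * M)).filter (fun i => P (x i)) : Finset ℕ) : Set ℕ) := by
    ext i
    simp [and_assoc]
  rw [e, Set.ncard_coe_finset]
  have hM' : (M : ℝ) ≠ 0 := by exact_mod_cast hM.ne'
  field_simp

/-- **Non-special systems in every degree along very sparse families of sums of multiplicities.**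
Let `F` be a finite set of numbers `n ≥ 10` (of points). There is `c > 0` such that for every `k` and `δ > 0` there is a step
`h ≥ 1` with the following property. Let `f` be real analytic at `x₀`, and let `K` be the order of `f - f x₀` at `x₀`; let `δ₀ > 0`,
`0 < ε₀ < 1 / 2` and `κ ≠ 0` be fixed. For all large `M`, all real `U` with `M ^ (K + δ₀) ≤ U ≤ exp ((log M) ^ (3 / 2 - ε₀))` and
all integers `c₀` such that the integers `W_i = c₀ + κ ⌊U f(x₀ + 1 / i)⌋`, `M < i ≤ 2 M`, are not negative: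
(1) for every `n ∈ F`: for all but at most `(bad n + δ) M` of the `i`, all systems of plane curves with `n` general points, whose
multiplicities take at most two consecutive values `m ≥ 1` and `m + 1` and have one of the sums `W_i, W_i + h, …, W_i + k h`, are
non-special in EVERY degree `d`; here `bad n < 1`, and `bad n = 0` for squares;
(2) if no product of two different members of `F` is a square (for instance if all members of `F` are squarefree): for at least `c M`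
of the `i` this holds for ALL `n ∈ F` at once.
Every function `f` which is real analytic at `x₀` and not constant near `x₀` qualifies, with a suitable `K`; for example
`f x = x`, `x₀ = 0`: the sums `c₀ + κ ⌊U / i⌋`. -/
theorem result :
    (∀ F : Finset ℕ, (∀ n ∈ F, 10 ≤ n) → ∃ c : ℝ, 0 < c ∧ ∀ (k : ℕ) (δ : ℝ), 0 < δ → ∃ h : ℕ, 1 ≤ h ∧
      ∀ (f : ℝ → ℝ) (x₀ : ℝ) (K : ℕ), OrderAt f x₀ K → ∀ δ₀ ε₀ : ℝ, 0 < δ₀ → 0 < ε₀ → ε₀ < 1 / 2 →
      ∀ (κ : ℤ), κ ≠ 0 → ∃ M₀ : ℕ, ∀ M : ℕ, M₀ ≤ M → ∀ U : ℝ, InRange K δ₀ ε₀ M U →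
      ∀ c₀ : ℤ, (∀ i : ℕ, M < i → i ≤ 2 * M → 0 ≤ member f x₀ U c₀ κ i) →
        (∀ n ∈ F, ({i : ℕ | M < i ∧ i ≤ 2 * M ∧
            ∃ j ≤ k, ¬ Good n ((member f x₀ U c₀ κ i).toNat + j * h)}.ncard : ℝ) ≤ (bad n + δ) * M) ∧
        ((∀ n ∈ F, ∀ n' ∈ F, n ≠ n' → ¬ IsSquare (n * n')) →
          c * M ≤ ({i : ℕ | M < i ∧ i ≤ 2 * M ∧
            ∀ n ∈ F, ∀ j ≤ k, Good n ((member f x₀ U c₀ κ i).toNat + j * h)}.ncard : ℝ))) ∧
    (∀ n : ℕ, 10 ≤ n → bad n < 1 ∧ bad n ≤ 2 / 3 + 5 / (4 * √(n : ℝ))) ∧ bad 10 < 0.163 ∧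
    (∀ (f : ℝ → ℝ) (x₀ : ℝ), AnalyticAt ℝ f x₀ → (¬ ∀ᶠ x in nhds x₀, f x = f x₀) → ∃ K : ℕ, OrderAt f x₀ K) ∧
    (∀ (f : ℝ → ℝ) (x₀ : ℝ), AnalyticAt ℝ f x₀ → deriv f x₀ ≠ 0 → OrderAt f x₀ 1) := by
  refine ⟨fun F hF => ?_, fun n hn => ⟨?_, bad_le n⟩, bad_ten,
    fun f x₀ h1 h2 => Pool.Agent.W2helper30.AN.ord_exists h1 h2,
    fun f x₀ h1 h2 => Pool.Agent.W2helper30.AN.ord_one h1 h2⟩
  · obtain ⟨c, hc, hcF⟩ := Pool.Agent.W2helper30.FP.always_sums F hF
    refine ⟨c, hc, fun k δ hδ => ?_⟩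
    obtain ⟨h, hh, hA⟩ := hcF k δ hδ
    refine ⟨h, hh, fun f x₀ K hf δ₀ ε₀ hδ₀ hε₀ hε₀2 κ hκ => ?_⟩
    have hf' : Ord f x₀ K := hf
    obtain ⟨M₀, h1⟩ := Pool.Agent.W2helper30.FP.always_an hA hf' δ₀ ε₀ hδ₀ hε₀ hε₀2 κ hκ
    refine ⟨M₀ + 1, fun M hM U hU c₀ hc₀ => ?_⟩
    have hM1 : 0 < M := by omega
    have hM0 : (0 : ℝ) ≤ M := Nat.cast_nonneg M
    have h2 := h1 M (by omega) U ⟨hU.1, hU.2⟩ c₀ (fun i hi => by
      rw [Finset.mem_Ioc] at hi
      exact hc₀ i hi.1 hi.2)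
    have hnn : ∀ m, 0 ≤ (law (Finset.Ioc M (2 * M)) (fun _ => 1 / (M : ℝ))
        (fun i => (c₀ + κ * vl f x₀ U i).toNat)) m :=
      Pool.Agent.N794.DG.law_nonneg (fun _ _ => by positivity) _
    refine ⟨fun n hn => ?_, fun hP => ?_⟩
    · have h3 := (meas_mono hnn (P := fun m => ∃ j ≤ k, ¬ Good n (m + j * h))
        (R := fun m => ∃ j ≤ k, ¬ Pool.Agent.N141.SG.GoodN n (m + j * h)) (fun m hm => by
          obtain ⟨j, hj, hm⟩ := hm
          exact ⟨j, hj, fun h3 => hm (good_of h3)⟩)).trans (h2.1 n hn)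
      have h4 := count_eq hM1 (fun i => (member f x₀ U c₀ κ i).toNat) (fun m => ∃ j ≤ k, ¬ Good n (m + j * h))
      refine (le_of_eq h4).trans ?_
      rw [bad_eq, mul_comm]
      exact mul_le_mul_of_nonneg_right h3 hM0
    · have h3 := (h2.2 hP).trans (meas_mono hnn
        (P := fun m => ∀ n ∈ F, ∀ j ≤ k, Pool.Agent.N141.SG.GoodN n (m + j * h))
        (R := fun m => ∀ n ∈ F, ∀ j ≤ k, Good n (m + j * h)) (fun m hm n hn j hj =>
          good_of (hm n hn j hj)))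
      have h4 := count_eq hM1 (fun i => (member f x₀ U c₀ κ i).toNat)
        (fun m => ∀ n ∈ F, ∀ j ≤ k, Good n (m + j * h))
      refine le_trans ?_ (le_of_eq h4.symm)
      rw [mul_comm]
      exact mul_le_mul_of_nonneg_left h3 hM0
  · rw [bad_eq]
    exact Pool.Agent.N141.SG.badN_lt hn

end Pool.Agent.Results.MP_d3128a_ag.AnalyticSparseSums
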