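import Pool.Agent.W2helper31.SN.Cor

set_option autoImplicit false

/-!
# Quasi-homogeneous systems: many points of one multiplicity and further points, every degree

Let `n` general points of the complex projective plane have the multiplicity `m` and let `k` further
general points have the multiplicities `e 0, …, e (k - 1)`. The linear systems of the curves of
degree `d` with these multiplicities are non-special for EVERY degree `d` in the following cases.

1. `e 0 = ⋯ = e (k - 1) = e` (for `k = 1` the system is quasi-homogeneous), `n ≥ 144`,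
   `37 e ^ 2 ≤ n m ^ 2` and `4 k (e + 1) ≤ (m - 7) √n`, `m ≥ 8`, or `2 k (e + 1) ≤ m √n`, `m ≥ 30`.
2. All `e i` are arbitrary with `144 (e i) ^ 4 ≤ n m ^ 4`, they have `r` different values with
   `8 r + 18 ≤ 3 √n`, and the sum of the `e i + 1` satisfies the last condition of 1.
3. All `m ≥ 1`: for a number `L ≥ 36` with `n 4 ^ r ≤ 4 ^ (L + 2)` and `64 L ≤ m √n` the `e i` are
   arbitrary with `16 L (e i) ^ 2 ≤ n m ^ 2` and `5 ∑ (e i + 1) ≤ m √n`.
4. A criterion: `4 ^ j` times `N` of the points of multiplicity `m` are put together, the other ones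
   are considered as further points.
-/

namespace Pool.Agent.Results.MP_d3128a_ag.QuasiHomogeneous

open MvPolynomial Pool.Agent.W2helper31.SN

/-- Forms of degree `d` vanishing to order at least `w i` at the points `(P i 0 : P i 1 : 1)`. -/
noncomputable def forms {s : ℕ} (P : Fin s → Fin 2 → ℂ) (d : ℕ) (w : Fin s → ℕ) :
    Submodule ℂ (MvPolynomial (Fin 3) ℂ) :=
  homogeneousSubmodule (Fin 3) ℂ d ⊓
    Submodule.restrictScalars ℂ
      (⨅ i : Fin s, (Ideal.span {X 0 - C (P i 0) * X 2, X 1 - C (P i 1) * X 2} :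
        Ideal (MvPolynomial (Fin 3) ℂ)) ^ (w i))

/-- For the points `P` of a nonempty open set (the complement of a hypersurface `F = 0`) the systems
of the curves of degree `d` with the multiplicities `w` are non-special, for every `d`. -/
def NonspecialInEveryDegree {s : ℕ} (w : Fin s → ℕ) : Prop :=
  ∃ F : MvPolynomial (Fin s × Fin 2) ℂ, F ≠ 0 ∧
    ∀ P : Fin s → Fin 2 → ℂ, eval (fun ij : Fin s × Fin 2 => P ij.1 ij.2) F ≠ 0 →
      ∀ d : ℕ, (Module.finrank ℂ ↥(forms P d w) : ℤ) =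
        max 0 (((d + 2).choose 2 : ℤ) - ∑ i, ((w i + 1).choose 2 : ℤ))

/-- `n` points of multiplicity `m` and further points of the multiplicities `e i`. -/
def mults (n m : ℕ) {k : ℕ} (e : Fin k → ℕ) : Fin (n + k) → ℕ :=
  Fin.append (fun _ => m) e

/-- The number `S` is small with respect to `m √n`. -/
def Small (n m S : ℕ) : Prop :=
  (8 ≤ m ∧ 4 * (S : ℝ) ≤ ((m : ℝ) - 7) * √(n : ℝ)) ∨ (30 ≤ m ∧ 2 * (S : ℝ) ≤ m * √(n : ℝ))

/-- The number of the different values of `e`. -/
def numValues {k : ℕ} (e : Fin k → ℕ) : ℕ := (Finset.univ.image e).card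

/-- `e t` is light: it is smaller than `e i` and attained at most `e i / e t` times. -/
def light {k : ℕ} (e : Fin k → ℕ) (i : Fin k) : Finset ℕ :=
  (Finset.univ.image e).filter fun t => t < e i ∧ (Finset.univ.filter fun l => e l = t).card * t ≤ e i

/-- The further multiplicities `e` are admissible for `N` points of multiplicity `B`: they are
positive, `N ≥ 36`, `N ≥ 4 (r + 1)` for the number `r` of their values, and if they are not all at
most `B`, then the largest one `e i` satisfies `36 (e i) ^ 2, 4 (r + 1) (e i) ^ 2 ≤ N B ^ 2` and is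
attained at least as often as there are light values. -/
def Admissible (N B : ℕ) {k : ℕ} (e : Fin k → ℕ) : Prop :=
  (∀ i, 1 ≤ e i) ∧ 36 ≤ N ∧ 4 * (numValues e + 1) ≤ N ∧
    ((∀ i, e i ≤ B) ∨ ∃ i, (∀ l, e l ≤ e i) ∧ 36 * e i ^ 2 ≤ N * B ^ 2 ∧
      4 * (numValues e + 1) * e i ^ 2 ≤ N * B ^ 2 ∧
      (light e i).card ≤ (Finset.univ.filter fun l => e l = e i).card)

theorem of_ex {s : ℕ} {w : Fin s → ℕ} (h : Ex w) : NonspecialInEveryDegree w := by
  obtain ⟨F, hF, hF'⟩ := h.expDim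
  refine ⟨F.map (algebraMap ℚ ℂ), H932R3.map_ne_zero_of hF, fun P hP d => ?_⟩
  rw [MvPolynomial.eval_map] at hP
  have h1 := hF' P hP d
  unfold Pool.Agent.H932R3.ExpDim at h1
  unfold forms
  rw [h1]
  have e : ∑ i, ((w i + 1).choose 2 : ℤ) = ((∑ i, (w i + 1).choose 2 : ℕ) : ℤ) := by
    push_cast
    rfl
  rw [e]
  omega

theorem small_iff {n m S : ℕ} (h : Small n m S) : (8 ≤ m ∧ 16 * S ^ 2 ≤ (m - 7) ^ 2 * n) ∨
    (30 ≤ m ∧ 4 * S ^ 2 ≤ m ^ 2 * n) := by
  have hn : √(n : ℝ) ^ 2 = n := Real.sq_sqrt (Nat.cast_nonneg _)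
  rcases h with ⟨h1, h2⟩ | ⟨h1, h2⟩
  · left
    refine ⟨h1, ?_⟩
    have e : ((m - 7 : ℕ) : ℝ) = (m : ℝ) - 7 := by
      rw [Nat.cast_sub (by omega)]; norm_num
    have h3 := pow_le_pow_left₀ (by positivity) h2 2
    rw [mul_pow, mul_pow, hn, ← e] at h3
    norm_num at h3
    exact_mod_cast h3
  · right
    refine ⟨h1, ?_⟩
    have h3 := pow_le_pow_left₀ (by positivity) h2 2
    rw [mul_pow, mul_pow, hn] at h3
    norm_num at h3
    exact_mod_cast h3

theorem result :
    -- 1. equal further multiplicities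
    (∀ n m k e : ℕ, 144 ≤ n → 1 ≤ e → 37 * e ^ 2 ≤ n * m ^ 2 → Small n m (k * (e + 1)) →
      NonspecialInEveryDegree (mults n m fun _ : Fin k => e)) ∧
    -- 2. bounded further multiplicities
    (∀ (n m k : ℕ) (e : Fin k → ℕ), 144 ≤ n → (∀ i, 1 ≤ e i ∧ 144 * e i ^ 4 ≤ n * m ^ 4) →
      8 * (numValues e : ℝ) + 18 ≤ 3 * √(n : ℝ) → Small n m (∑ i, (e i + 1)) →
      NonspecialInEveryDegree (mults n m e)) ∧
    -- 3. all `m`
    (∀ (n m k L : ℕ) (e : Fin k → ℕ), 36 ≤ L → 16 * L ≤ n → n * 4 ^ numValues e ≤ 4 ^ (L + 2) →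
      64 * (L : ℝ) ≤ m * √(n : ℝ) → (∀ i, 1 ≤ e i ∧ 16 * L * e i ^ 2 ≤ n * m ^ 2) →
      5 * ((∑ i, (e i + 1) : ℕ) : ℝ) ≤ m * √(n : ℝ) → NonspecialInEveryDegree (mults n m e)) ∧
    -- 4. the criterion
    (∀ (n m k j N : ℕ) (e : Fin k → ℕ), 1 ≤ m → 1 ≤ j → 4 ^ j * N ≤ n →
      Admissible N (2 ^ j * m) (mults (n - 4 ^ j * N) m e) →
      (N + ∑ i, (mults (n - 4 ^ j * N) m e i + 1)) ^ 2 ≤ N * (2 ^ j * m + 1) ^ 2 →
      NonspecialInEveryDegree (mults n m e)) := by
  refine ⟨?_, ?_, ?_, ?_⟩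
  · intro n m k e hn he h1 h2
    exact of_ex (quasi_hom hn he (small_iff h2) h1)
  · intro n m k e hn he h1 h2
    refine of_ex (bounded hn (fun i => (he i).1) (fun i => (he i).2) ?_ (small_iff h2))
    have hn : √(n : ℝ) ^ 2 = n := Real.sq_sqrt (Nat.cast_nonneg _)
    have h3 := pow_le_pow_left₀ (by positivity) h1 2
    rw [mul_pow, hn] at h3
    norm_num at h3
    exact_mod_cast h3
  · intro n m k L e hL h0 h1 h2 he h3
    have hn : √(n : ℝ) ^ 2 = n := Real.sq_sqrt (Nat.cast_nonneg _)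
    refine of_ex (many hL h1 ?_ he ?_ h0)
    · have h4 := pow_le_pow_left₀ (by positivity) h2 2
      rw [mul_pow, mul_pow, hn] at h4
      norm_num at h4
      rw [mul_comm n]
      exact_mod_cast h4
    · have h4 := pow_le_pow_left₀ (by positivity) h3 2
      rw [mul_pow, mul_pow, hn] at h4
      norm_num at h4
      rw [mul_comm n]
      exact_mod_cast h4
  · intro n m k j N e hm hj hn ⟨h1, h2, h3, h4⟩ hloss
    refine of_ex (crit_append hj hn ⟨h1, by positivity, h2, h3, h4⟩ ?_)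
    have e1 := sum_append (c := n - 4 ^ j * N) (m := m) e
    unfold mults at hloss
    rw [e1] at hloss
    exact hloss

end Pool.Agent.Results.MP_d3128a_ag.QuasiHomogeneous
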